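import Pool.Agent.Lib.helper23.LoopSN

set_option autoImplicit false

namespace Pool.Agent.Results.MP_543b9c_al.NoBound

open Pool.Agent.Lib.Helper23.LoopDefs

abbrev QQ (k : ℕ) := ZMod 2 × (Fin (k + 2) → ZMod 2)

def th {k : ℕ} (x y : Fin (k + 2) → ZMod 2) : ZMod 2 := (∏ i, x i) * y 0

theorem th_zero_left {k : ℕ} (y : Fin (k + 2) → ZMod 2) : th 0 y = 0 := by simp [th]
theorem th_zero_right {k : ℕ} (y : Fin (k + 2) → ZMod 2) : th y 0 = 0 := by simp [th]

def LL (k : ℕ) : Loop (QQ k) where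
  mul p q := (p.1 + q.1 + th p.2 q.2, p.2 + q.2)
  ldiv p q := (q.1 - p.1 - th p.2 (q.2 - p.2), q.2 - p.2)
  rdiv q p := (q.1 - p.1 - th (q.2 - p.2) p.2, q.2 - p.2)
  one := (0, 0)
  one_mul a := by simp [th_zero_left]
  mul_one a := by simp [th_zero_right]
  mul_ldiv a b := Prod.ext (by simp only; ring) (by simp)
  ldiv_mul a b := by ext <;> simp [add_assoc]
  rdiv_mul a b := Prod.ext (by simp only; ring) (by simp)
  mul_rdiv a b := by
    ext
    · simp only [add_sub_cancel_right]; ring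
    · simp

theorem mlt_shape (k : ℕ) (σ : Equiv.Perm (QQ k)) (hσ : σ ∈ Mlt (LL k)) :
    ∃ (x : Fin (k + 2) → ZMod 2) (ψ : (Fin (k + 2) → ZMod 2) → ZMod 2),
      ∀ a y, σ (a, y) = (a + ψ y, y + x) := by
  rw [Mlt, ← Subgroup.mem_toSubmonoid, Subgroup.closure_toSubmonoid_of_finite] at hσ
  induction hσ using Submonoid.closure_induction with
  | mem π hπ =>
    obtain ⟨a, ha | ha⟩ := hπ
    · exact ⟨a.2, fun y => a.1 + th a.2 y, fun b y => by
        rw [ha]; simp only [LL]; exact Prod.ext (by simp only; ring) (add_comm _ _)⟩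
    · exact ⟨a.2, fun y => a.1 + th y a.2, fun b y => by
        rw [ha]; simp only [LL]; ext <;> simp [add_assoc]⟩
  | one => exact ⟨0, 0, fun a y => by simp⟩
  | mul σ τ _ _ h1 h2 =>
    obtain ⟨x, ψ, h1⟩ := h1
    obtain ⟨x', ψ', h2⟩ := h2
    exact ⟨x' + x, fun y => ψ' y + ψ (y + x'), fun a y => by
      rw [Equiv.Perm.mul_apply, h2, h1]; simp [add_assoc]⟩

theorem mlt_nilpotent (k : ℕ) : Group.IsNilpotent (Mlt (LL k)) := by
  have : Fact (Nat.Prime 2) := ⟨Nat.prime_two⟩
  refine IsPGroup.isNilpotent (p := 2) fun g => ⟨2, ?_⟩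
  obtain ⟨x, ψ, h⟩ := mlt_shape k g.1 g.2
  have h2 : ∀ y : Fin (k + 2) → ZMod 2, y + x + x = y := fun y => by
    funext i; simp [add_assoc, CharTwo.add_self_eq_zero]
  ext1
  ext1 ⟨a, y⟩
  simp only [show 2 ^ 2 = 1 + 1 + 1 + 1 from rfl, pow_succ, pow_zero, one_mul, Subgroup.coe_mul,
    Equiv.Perm.mul_apply, h, h2, Subgroup.coe_one, Equiv.Perm.one_apply]
  congr 1
  generalize ψ y = s
  generalize ψ (y + x) = t
  revert a s t
  decide

theorem series_two (k : ℕ) : HasCentralSeries (LL k) 2 := by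
  have hs : ∀ p q : QQ k, p.2 = q.2 → SameCoset (LL k) {p | p.2 = 0} p q := by
    rintro ⟨a, x⟩ ⟨b, y⟩ h
    simp only at h
    subst h
    exact ⟨(a - b, 0), rfl, by simp [LL, th_zero_right]⟩
  have hs0 : ∀ p q : QQ k, p = q → SameCoset (LL k) {(LL k).one} p q := by
    rintro p q rfl
    exact ⟨_, rfl, ((LL k).mul_one p).symm⟩
  refine ⟨fun i => if i = 0 then {(LL k).one} else if i = 1 then {p | p.2 = 0} else Set.univ,
    by simp, by simp, ?_, ?_⟩
  · intro i hi
    interval_cases i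
    · refine ⟨by simp, ?_, ?_⟩
      · simp [LL, th_zero_left]
      · simp
    · refine ⟨by simp [LL], ?_, ?_⟩
      · simp only [LL]
        simp +contextual
      · intro σ hσ h1 p hp
        obtain ⟨x, ψ, h⟩ := mlt_shape k σ hσ
        obtain ⟨a, y⟩ := p
        simp only [LL, h, Prod.mk.injEq, zero_add] at h1
        simp only [one_ne_zero, if_false, if_true, Set.mem_ofPred_eq] at hp ⊢
        simp [h, hp, h1.2]
    · simp [IsNormalSubloop]
  · intro i hi
    interval_cases i
    · refine ⟨by simp [LL], ?_⟩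
      rintro ⟨a, z⟩ ha x y
      simp only [zero_add, one_ne_zero, if_false, if_true, Set.mem_ofPred_eq] at ha ⊢
      subst ha
      refine ⟨hs0 _ _ ?_, hs0 _ _ ?_, hs0 _ _ ?_, hs0 _ _ ?_⟩ <;>
        simp only [LL, th_zero_left, th_zero_right, zero_add, add_zero, Prod.mk.injEq, and_true] <;>
        ring
    · refine ⟨by simp, ?_⟩
      rintro a - x y
      simp only [one_ne_zero, if_false, if_true]
      refine ⟨hs _ _ ?_, hs _ _ ?_, hs _ _ ?_, hs _ _ ?_⟩ <;> simp only [LL] <;> ring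

theorem th_single (k : ℕ) (y : Fin (k + 2) → ZMod 2) : th (Pi.single 0 1) y = 0 := by
  unfold th
  rw [Finset.prod_eq_zero (Finset.mem_univ (1 : Fin (k + 2))) (by simp), zero_mul]

theorem series_lower (k j : ℕ) (h : HasCentralSeries (LL k) j) : 2 ≤ j := by
  by_contra hj
  obtain ⟨N, h0, h1, -, h2⟩ := h
  have hj' : j < 2 := not_le.1 hj
  interval_cases j
  · have : ((1, 0) : QQ k) ∈ N 0 := by rw [h1]; trivial
    rw [h0] at this
    simp [LL] at this
  · obtain ⟨n, hn, h3⟩ := ((h2 0 (by norm_num)).2 (0, fun _ => 1) (by rw [zero_add, h1]; trivial)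
      (0, Pi.single 0 1) (0, 0)).1
    rw [h0, Set.mem_singleton_iff] at hn
    rw [hn, (LL k).mul_one] at h3
    have h4 := congrArg Prod.fst h3
    simp only [LL, th_single] at h4
    simp [th] at h4

theorem poly_sum (k : ℕ) {ι κ : Type} (v : κ → ι) (c : Fin (k + 2) → ZMod 2) (s : Finset κ) :
    ∃ P : (ι → QQ k) → QQ k, IsLoopPoly (LL k) P ∧ ∀ z, (P z).2 = ∑ i ∈ s, (z (v i)).2 + c := by
  classical
  induction s using Finset.induction_on with
  | empty => exact ⟨fun _ => (0, c), IsLoopPoly.const _, by simp⟩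
  | insert i s hi ih =>
    obtain ⟨P, h1, h2⟩ := ih
    refine ⟨_, IsLoopPoly.mul (IsLoopPoly.var (v i)) h1, fun z => ?_⟩
    simp only [LL, h2, Finset.sum_insert hi, add_assoc]

theorem not_sn (k j : ℕ) (hj : j ≤ k) : ¬ Supernilpotent (LL k) j := by
  intro h
  let em : Fin j → Fin (k + 2) := fun i => ⟨i, by omega⟩
  have hem : Function.Injective em := fun a b hab => Fin.ext (by simpa [em] using hab)
  let e : Fin j → Fin (k + 2) → ZMod 2 := fun i => Pi.single (em i) 1
  obtain ⟨P, hP, hP'⟩ := poly_sum k (ι := (Σ _ : Fin j, Fin 1) ⊕ Fin 1)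
    (fun i : Fin j => Sum.inl ⟨i, 0⟩) ((fun _ => 1) - ∑ i, e i) Finset.univ
  have hval : ∀ (p q : QQ k), (LL k).rdiv ((LL k).mul p q) ((LL k).mul q p)
        = (th p.2 q.2 - th q.2 p.2, 0) := by
    intro p q
    simp only [LL, add_comm q.2, sub_self, th_zero_left]
    congr 1
    ring
  have h1 := h (fun _ => 1) 1 _
    (IsLoopPoly.rdiv (IsLoopPoly.mul hP (IsLoopPoly.var (Sum.inr 0))) (IsLoopPoly.mul (IsLoopPoly.var (Sum.inr 0)) hP))
    (fun _ _ => (0, 0)) (fun i _ => (0, e i)) (fun _ => (0, 0)) (fun _ => (0, Pi.single 0 1))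
    (by
      intro i hi
      have := congrFun (congrArg Prod.snd (congrFun hi 0)) (em i)
      simp [e] at this) (by
      intro x hx hxb
      obtain ⟨i, hi⟩ := Function.ne_iff.1 hxb
      have hi' := (hx i).resolve_right hi
      simp only [hval, Sum.elim_inr, th_zero_left, th_zero_right, th_single, hP', Sum.elim_inl]
      congr 2
      unfold th
      rw [Finset.prod_eq_zero (Finset.mem_univ (em i)), zero_mul]
      simp only [Pi.add_apply, Pi.sub_apply, Finset.sum_apply]
      rw [Finset.sum_eq_single i, Finset.sum_eq_single i, hi']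
      · simp [e]
      · intro b _ hb
        simp [e, Pi.single_apply, hem.ne hb.symm]
      · simp
      · intro b _ hb
        rcases hx b with h3 | h3 <;> simp [h3, e, Pi.single_apply, hem.ne hb.symm]
      · simp)
  simp only [hval, Sum.elim_inr, th_zero_left, th_zero_right, th_single, hP', Sum.elim_inl,
    add_sub_cancel] at h1
  simp [th] at h1

/-- Finite supernilpotent loops of central nilpotency class exactly two have unbounded
supernilpotence class. -/
theorem result : ∀ k : ℕ, ∃ (Q : Type) (_ : Finite Q) (L : Loop Q),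
    IsLeast {n | HasCentralSeries L n} 2 ∧ (∃ K, 1 ≤ K ∧ Supernilpotent L K) ∧
      ∀ j ≤ k, ¬ Supernilpotent L j := by
  intro k
  have := mlt_nilpotent k
  exact ⟨QQ k, inferInstance, LL k, ⟨series_two k, series_lower k⟩,
    ⟨_, by have : 0 < 4 ^ (Group.nilpotencyClass (Mlt (LL k)) - 1) := by positivity
           omega,
      Pool.Agent.Lib.Helper23.LoopSN.sn_of_nilpotent (LL k) _
        Subgroup.lowerCentralSeries_nilpotencyClass⟩, not_sn k⟩

end Pool.Agent.Results.MP_543b9c_al.NoBound
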